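import Pool.Agent.H67.GU.Evs
import Pool.Agent.H24.TL.Ev3

/-!
# [H67 EH FIN] both signs for EVERY length `(log X)^B ≤ H ≤ X^(1/2-ε)`

PROOF. `H ≤ X^(1/6)`: `evs`, the size is `√H`. `H ≥ X^(1/6)`: `evh3` with `min ε 1/12` in place of `ε`.
-/

set_option autoImplicit false

namespace Pool.Agent.H67.EH

open Finset Pool.Agent.H48.WN Pool.Agent.H24.TL Pool.Agent.H67.GU

/-- for `H ≤ X^(1/5)` the size is `√H` -/
theorem m3_small (X H : ℝ) (hX : 1 ≤ X) (hH : 1 ≤ H) (h : H ≤ X ^ (1 / 5 : ℝ)) : M3 X H = H ^ (1 / 2 : ℝ) := by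
  have hH0 : 0 < H := by linarith
  have hX0 : 0 < X := by linarith
  have h13 : (0 : ℝ) < H ^ (1 / 3 : ℝ) := by positivity
  have h1 : H ^ (1 / 2 : ℝ) ≤ X ^ (1 / 6 : ℝ) / H ^ (1 / 3 : ℝ) := by
    rw [le_div_iff₀ h13, ← Real.rpow_add hH0]
    calc H ^ (1 / 2 + 1 / 3 : ℝ) ≤ (X ^ (1 / 5 : ℝ)) ^ (1 / 2 + 1 / 3 : ℝ) := Real.rpow_le_rpow hH0.le h (by norm_num)
      _ = X ^ (1 / 6 : ℝ) := by
          rw [← Real.rpow_mul hX0.le]
          norm_num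
  have h2 : min (H ^ (1 / 3 : ℝ)) (X ^ (2 / 9 : ℝ) / H ^ (1 / 3 : ℝ)) ≤ H ^ (1 / 2 : ℝ) :=
    (min_le_left _ _).trans (Real.rpow_le_rpow_of_exponent_le hH (by norm_num))
  rw [M3, min_eq_left h1, max_eq_left h2]

/-- the window -/
theorem win_in : ∃ x0 : ℝ, ∀ X n : ℕ, x0 ≤ X → n ∈ Ioc ⌊(X : ℝ) / Lw X⌋₊ ⌈Lw X * (X : ℝ)⌉₊ →
    X / √(Real.log X) ≤ n ∧ (n : ℝ) ≤ X * √(Real.log X) := by
  have ev1 : ∀ᶠ X : ℝ in Filter.atTop, 27 ≤ Real.log X := Real.tendsto_log_atTop.eventually_ge_atTop 27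
  obtain ⟨x0, hx0⟩ := Filter.eventually_atTop.mp (ev1.and (Filter.eventually_ge_atTop 1))
  refine ⟨x0, fun X n hX hn => ?_⟩
  obtain ⟨k1, k2⟩ := hx0 X hX
  rw [mem_Ioc] at hn
  obtain ⟨l, hl⟩ : ∃ l : ℝ, l = Real.log X := ⟨_, rfl⟩
  obtain ⟨L, hL⟩ : ∃ L : ℝ, L = Lw X := ⟨_, rfl⟩
  rw [← hl] at k1 ⊢
  rw [← hL] at hn
  have hX0 : (0 : ℝ) < X := by linarith
  have hl0 : 0 < l := by linarith
  have hL3 : 3 ≤ L := by
    rw [hL, Lw, ← hl]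
    exact Real.le_sqrt_of_sq_le (by linarith)
  have hL0 : 0 < L := by linarith
  have hL2 : L ^ 2 = l / 3 := by rw [hL, Lw, ← hl, Real.sq_sqrt (by linarith)]
  have hsq2 : √l ^ 2 = l := Real.sq_sqrt hl0.le
  have hsq0 : 0 < √l := Real.sqrt_pos.mpr hl0
  have hLs : 3 / 2 * L ≤ √l := by
    rw [← abs_of_nonneg (by positivity : 0 ≤ 3 / 2 * L), ← abs_of_pos hsq0, ← sq_le_sq, hsq2]
    nlinarith
  constructor
  · have c1 : (X : ℝ) / L < n := (Nat.floor_lt' (by omega)).mp hn.1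
    have c2 : (X : ℝ) / √l ≤ X / L := div_le_div_of_nonneg_left hX0.le hL0 (by linarith)
    linarith
  · have c1 : (n : ℝ) ≤ ⌈L * (X : ℝ)⌉₊ := by exact_mod_cast hn.2
    have c2 : (⌈L * (X : ℝ)⌉₊ : ℝ) < L * X + 1 := Nat.ceil_lt_add_one (by positivity)
    have c3 := mul_le_mul_of_nonneg_left hLs hX0.le
    have c4 : 3 * (X : ℝ) ≤ L * X := mul_le_mul_of_nonneg_right hL3 hX0.le
    linarith

/-- both signs for every length -/
theorem eh (ε : ℝ) (hε : 0 < ε) : ∃ (B : ℝ) (X0 : ℕ), 0 < B ∧ ∀ X : ℕ, X0 ≤ X → ∀ H : ℕ,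
    Real.log X ^ B ≤ H → (H : ℝ) ≤ (X : ℝ) ^ (1 / 2 - ε) → ∀ s : ℝ, s = 1 ∨ s = -1 →
    X * (M3 X H / H) ^ 2 / (H : ℝ) ^ ε ≤
      (((Ioc ⌊(X : ℝ) / Lw X⌋₊ ⌈Lw X * (X : ℝ)⌉₊).filter fun n => M3 X H / (H : ℝ) ^ ε ≤ s * EI n H).card : ℝ) := by
  obtain ⟨a, ha⟩ : ∃ a : ℝ, a = min ε (1 / 30) := ⟨_, rfl⟩
  have ha0 : 0 < a := by rw [ha]; exact lt_min hε (by norm_num)
  have haε : a ≤ ε := by rw [ha]; exact min_le_left _ _
  have ha30 : a ≤ 1 / 30 := by rw [ha]; exact min_le_right _ _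
  obtain ⟨B, X1, hB, hevs⟩ := evs a ha0
  obtain ⟨X2, hevh⟩ := evh3 (a / 6) (by linarith)
  refine ⟨B, max 3 (max X1 X2), hB, fun X hX H hH1 hH2 s hs => ?_⟩
  have hX3 : 3 ≤ X := (le_max_left _ _).trans hX
  have hX1 : X1 ≤ X := (le_max_left _ _).trans ((le_max_right _ _).trans hX)
  have hX2 : X2 ≤ X := (le_max_right _ _).trans ((le_max_right _ _).trans hX)
  have hx3 : (3 : ℝ) ≤ X := by exact_mod_cast hX3
  have hx1 : (1 : ℝ) ≤ X := by linarith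
  have hx0 : (0 : ℝ) < X := by linarith
  have hlog : 1 ≤ Real.log X := by
    rw [Real.le_log_iff_exp_le hx0]
    have := Real.exp_one_lt_d9
    linarith
  have hHr : (1 : ℝ) ≤ H := (Real.one_le_rpow hlog hB.le).trans hH1
  have hH0 : (0 : ℝ) < H := by linarith
  have hHa : 0 < (H : ℝ) ^ a := by positivity
  have hHε : (H : ℝ) ^ a ≤ (H : ℝ) ^ ε := Real.rpow_le_rpow_of_exponent_le hHr haε
  have hM0 : 0 ≤ M3 X H := by
    unfold M3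
    exact le_max_of_le_left (le_min (by positivity) (by positivity))
  have hmono : ∀ t : ℝ, M3 X H / (H : ℝ) ^ ε ≤ t → (((Ioc ⌊(X : ℝ) / Lw X⌋₊ ⌈Lw X * (X : ℝ)⌉₊).filter
      fun n => t ≤ s * EI n H).card : ℝ) ≤ (((Ioc ⌊(X : ℝ) / Lw X⌋₊ ⌈Lw X * (X : ℝ)⌉₊).filter
      fun n => M3 X H / (H : ℝ) ^ ε ≤ s * EI n H).card : ℝ) := by
    intro t ht
    exact_mod_cast card_le_card (monotone_filter_right _ fun n _ hn => ht.trans hn)
  rcases le_or_gt (H : ℝ) ((X : ℝ) ^ (1 / 6 : ℝ)) with h | h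
  · -- small lengths
    have h5 : (H : ℝ) ≤ (X : ℝ) ^ (1 / 5 - a) := h.trans (Real.rpow_le_rpow_of_exponent_le hx1 (by linarith))
    have hM := m3_small X H hx1 hHr (h.trans (Real.rpow_le_rpow_of_exponent_le hx1 (by norm_num)))
    have h1 := hevs X hX1 H hH1 h5 s hs
    have e1 : (H : ℝ) ^ (1 / 2 - a) = M3 X H / (H : ℝ) ^ a := by rw [hM, Real.rpow_sub hH0]
    rw [e1] at h1
    refine le_trans ?_ (h1.trans (hmono _ (div_le_div_of_nonneg_left hM0 hHa hHε)))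
    rw [hM, Real.rpow_add hH0, Real.rpow_one]
    have e2 : ((H : ℝ) ^ (1 / 2 : ℝ) / H) ^ 2 = 1 / H := by
      rw [div_pow, ← Real.rpow_natCast ((H : ℝ) ^ (1 / 2 : ℝ)), ← Real.rpow_mul hH0.le]
      norm_num
      field_simp
    rw [e2]
    calc (X : ℝ) * (1 / H) / (H : ℝ) ^ ε ≤ X * (1 / H) / (H : ℝ) ^ a :=
          div_le_div_of_nonneg_left (by positivity) hHa hHε
      _ = X / (H * (H : ℝ) ^ a) := by field_simp
  · -- large lengths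
    have h6 : (X : ℝ) ^ (a / 6) ≤ (H : ℝ) ^ a := by
      calc (X : ℝ) ^ (a / 6) = ((X : ℝ) ^ (1 / 6 : ℝ)) ^ a := by
            rw [← Real.rpow_mul hx0.le]
            congr 1
            ring
        _ ≤ (H : ℝ) ^ a := Real.rpow_le_rpow (by positivity) h.le ha0.le
    have h6' : (X : ℝ) ^ (a / 6) ≤ (H : ℝ) ^ ε := h6.trans hHε
    have hXa : 0 < (X : ℝ) ^ (a / 6) := by positivity
    have h1 := hevh X hX2 H ((Real.rpow_le_rpow_of_exponent_le hx1 (by linarith)).trans h.le)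
      (hH2.trans (Real.rpow_le_rpow_of_exponent_le hx1 (by linarith))) s hs
    have e1 : M3 X H * (X : ℝ) ^ (-(a / 6)) = M3 X H / (X : ℝ) ^ (a / 6) := by
      rw [Real.rpow_neg hx0.le]
      rfl
    rw [e1] at h1
    refine le_trans ?_ (h1.trans (hmono _ (div_le_div_of_nonneg_left hM0 hXa h6')))
    rw [Real.rpow_sub hx0, Real.rpow_one]
    calc (X : ℝ) * (M3 X H / H) ^ 2 / (H : ℝ) ^ ε ≤ X * (M3 X H / H) ^ 2 / (X : ℝ) ^ (a / 6) :=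
          div_le_div_of_nonneg_left (by positivity) hXa h6'
      _ = X / (X : ℝ) ^ (a / 6) * (M3 X H / H) ^ 2 := by ring

end Pool.Agent.H67.EH
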