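import Pool.Agent.H67.GU.Evm
import Pool.Agent.H67.EH.Fin

/-!
# [H67 EH FIN3] both signs for EVERY length `(log X)^16 ≤ H ≤ X^(1/2-ε)`, loss `(log X)^2` for `H ≤ X^(1/5-ε)`

PROOF. `a = min ε (1/30)`. `H ≤ X^(1/5-a)`: `evm a`, the size is `√H` up to `(log X)^2`. `H > X^(1/5-a)`: `evh3 a`.
-/

set_option autoImplicit false

namespace Pool.Agent.H67.EH

open Finset Pool.Agent.H48.WN Pool.Agent.H24.TL Pool.Agent.H67.GU

/-- the loss -/
noncomputable def Lt (ε X H : ℝ) : ℝ := if H ≤ X ^ (1 / 5 - ε) then Real.log X ^ 2 else X ^ ε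

/-- both signs for every length -/
theorem eh3 (ε : ℝ) (hε : 0 < ε) : ∃ X0 : ℕ, ∀ X : ℕ, X0 ≤ X → ∀ H : ℕ,
    Real.log X ^ 16 ≤ H → (H : ℝ) ≤ (X : ℝ) ^ (1 / 2 - ε) → ∀ s : ℝ, s = 1 ∨ s = -1 →
    X * (M3 X H / (Lt ε X H * H)) ^ 2 ≤
      (((Ioc ⌊(X : ℝ) / Lw X⌋₊ ⌈Lw X * (X : ℝ)⌉₊).filter fun n => M3 X H / Lt ε X H ≤ s * EI n H).card : ℝ) := by
  obtain ⟨a, ha⟩ : ∃ a : ℝ, a = min ε (1 / 30) := ⟨_, rfl⟩
  have ha0 : 0 < a := by rw [ha]; exact lt_min hε (by norm_num)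
  have haε : a ≤ ε := by rw [ha]; exact min_le_left _ _
  have ha30 : a ≤ 1 / 30 := by rw [ha]; exact min_le_right _ _
  obtain ⟨X1, hevl⟩ := evm a ha0
  obtain ⟨X2, hevh⟩ := evh3 a ha0
  have ev3 : ∀ᶠ X : ℝ in Filter.atTop, Real.log X ^ (2 : ℝ) ≤ X ^ ε := by
    have h := (isLittleO_log_rpow_rpow_atTop 2 hε).bound (c := 1) (by positivity)
    filter_upwards [h, Filter.eventually_ge_atTop 1] with X hX hX1
    have hl := Real.log_nonneg hX1
    rw [Real.norm_eq_abs, abs_of_nonneg (by positivity), Real.norm_eq_abs, abs_of_nonneg (by positivity)] at hX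
    linarith
  obtain ⟨x3, hx3'⟩ := Filter.eventually_atTop.mp ev3
  refine ⟨max (max 3 ⌈x3⌉₊) (max X1 X2), fun X hX H hH1 hH2 s hs => ?_⟩
  have hX3 : 3 ≤ X := (le_max_left _ _).trans ((le_max_left _ _).trans hX)
  have hX1 : X1 ≤ X := (le_max_left _ _).trans ((le_max_right _ _).trans hX)
  have hX2 : X2 ≤ X := (le_max_right _ _).trans ((le_max_right _ _).trans hX)
  have hXx3 : x3 ≤ X := (Nat.le_ceil x3).trans (by
    exact_mod_cast (le_max_right 3 _).trans ((le_max_left _ (max X1 X2)).trans hX))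
  have hx3 : (3 : ℝ) ≤ X := by exact_mod_cast hX3
  have hx1 : (1 : ℝ) ≤ X := by linarith
  have hx0 : (0 : ℝ) < X := by linarith
  have hlog : 1 ≤ Real.log X := by
    rw [Real.le_log_iff_exp_le hx0]
    have := Real.exp_one_lt_d9
    linarith
  have hlogp : 0 < Real.log X := by linarith
  have hlε : Real.log X ^ 2 ≤ (X : ℝ) ^ ε := by
    calc Real.log X ^ 2 = Real.log X ^ (2 : ℝ) := by rw [← Real.rpow_natCast]; norm_num
      _ ≤ (X : ℝ) ^ ε := hx3' X hXx3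
  have hHr : (1 : ℝ) ≤ H := (one_le_pow₀ hlog).trans hH1
  have hH0 : (0 : ℝ) < H := by linarith
  have hM0 : 0 ≤ M3 X H := by
    unfold M3
    exact le_max_of_le_left (le_min (by positivity) (by positivity))
  obtain ⟨L, hL⟩ : ∃ L : ℝ, L = Lt ε X H := ⟨_, rfl⟩
  rw [← hL]
  have hmono : ∀ t : ℝ, M3 X H / L ≤ t → (((Ioc ⌊(X : ℝ) / Lw X⌋₊ ⌈Lw X * (X : ℝ)⌉₊).filter
      fun n => t ≤ s * EI n H).card : ℝ) ≤ (((Ioc ⌊(X : ℝ) / Lw X⌋₊ ⌈Lw X * (X : ℝ)⌉₊).filter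
      fun n => M3 X H / L ≤ s * EI n H).card : ℝ) := by
    intro t ht
    exact_mod_cast card_le_card (monotone_filter_right _ fun n _ hn => ht.trans hn)
  rcases le_or_gt (H : ℝ) ((X : ℝ) ^ (1 / 5 - a)) with h | h
  · -- small lengths
    have hLl : Real.log X ^ 2 ≤ L := by
      rw [hL, Lt]
      split_ifs
      · exact le_rfl
      · exact hlε
    have hl20 : 0 < Real.log X ^ 2 := by positivity
    have hL0 : 0 < L := lt_of_lt_of_le hl20 hLl
    have hM := m3_small X H hx1 hHr (h.trans (Real.rpow_le_rpow_of_exponent_le hx1 (by linarith)))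
    rw [← Real.sqrt_eq_rpow] at hM
    have h1 := hevl X hX1 H hH1 h s hs
    rw [← hM] at h1
    refine le_trans ?_ (h1.trans (hmono _ (div_le_div_of_nonneg_left hM0 hl20 hLl)))
    have e2 : (X : ℝ) * (M3 X H / (L * H)) ^ 2 = X / (H * L ^ 2) := by
      rw [hM, div_pow, Real.sq_sqrt hH0.le]
      field_simp
    rw [e2]
    refine div_le_div_of_nonneg_left hx0.le (by positivity) (mul_le_mul_of_nonneg_left ?_ hH0.le)
    calc Real.log X ^ 4 = (Real.log X ^ 2) ^ 2 := by ring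
      _ ≤ L ^ 2 := pow_le_pow_left₀ hl20.le hLl 2
  · -- large lengths
    have h5 : ¬ (H : ℝ) ≤ (X : ℝ) ^ (1 / 5 - ε) := by
      intro hc
      have := Real.rpow_le_rpow_of_exponent_le hx1 (by linarith : 1 / 5 - ε ≤ 1 / 5 - a)
      linarith
    have hLe : L = (X : ℝ) ^ ε := by rw [hL, Lt, if_neg h5]
    have hXa : 0 < (X : ℝ) ^ a := by positivity
    have hXe : (X : ℝ) ^ a ≤ L := by
      rw [hLe]
      exact Real.rpow_le_rpow_of_exponent_le hx1 haε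
    have hXa1 : 1 ≤ (X : ℝ) ^ a := Real.one_le_rpow hx1 ha0.le
    have hL0 : 0 < L := lt_of_lt_of_le hXa hXe
    have h1 := hevh X hX2 H ((Real.rpow_le_rpow_of_exponent_le hx1 (by linarith)).trans h.le)
      (hH2.trans (Real.rpow_le_rpow_of_exponent_le hx1 (by linarith))) s hs
    have e1 : M3 X H * (X : ℝ) ^ (-a) = M3 X H / (X : ℝ) ^ a := by
      rw [Real.rpow_neg hx0.le]
      rfl
    rw [e1] at h1
    refine le_trans ?_ (h1.trans (hmono _ (div_le_div_of_nonneg_left hM0 hXa hXe)))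
    rw [Real.rpow_sub hx0, Real.rpow_one]
    have e2 : (X : ℝ) * (M3 X H / (L * H)) ^ 2 = X * (M3 X H / H) ^ 2 / L ^ 2 := by
      field_simp
    have e3 : (X : ℝ) / (X : ℝ) ^ a * (M3 X H / H) ^ 2 = X * (M3 X H / H) ^ 2 / (X : ℝ) ^ a := by ring
    rw [e2, e3]
    refine div_le_div_of_nonneg_left (by positivity) hXa ?_
    calc (X : ℝ) ^ a ≤ L := hXe
      _ ≤ L * L := le_mul_of_one_le_right hL0.le (hXa1.trans hXe)
      _ = L ^ 2 := by ring

end Pool.Agent.H67.EH
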