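import Pool.Agent.H67.EH.Fin3
import Pool.Agent.H24.EL.Cnh

/-!
# [H67 EH FIN4] both signs for EVERY length `(log X)^16 ≤ H ≤ X^(7/12-ε)`

PROOF. `H ≤ X^(5/12)`: `eh3`. `H > X^(5/12)`: `cnh`, the size is `X^(1/12)`.
-/

set_option autoImplicit false

namespace Pool.Agent.H67.EH

open Finset Pool.Agent.H48.WN Pool.Agent.H24.TL Pool.Agent.H67.GU

/-- the size -/
noncomputable def M4 (X H : ℝ) : ℝ := max (M3 X H) (min (H ^ (1 / 2 : ℝ)) (X ^ (1 / 12 : ℝ)))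

/-- for `H ≤ X^(5/12)` -/
theorem m4_lo (X H : ℝ) (hX : 1 ≤ X) (hH : 1 ≤ H) (h : H ≤ X ^ (5 / 12 : ℝ)) : M4 X H = M3 X H := by
  have hH0 : 0 < H := by linarith
  have hX0 : 0 < X := by linarith
  have h13 : (0 : ℝ) < H ^ (1 / 3 : ℝ) := by positivity
  rw [M4]
  refine max_eq_left ?_
  rcases le_total H (X ^ (1 / 4 : ℝ)) with h4 | h4
  · rw [M3]
    refine le_max_of_le_left (le_min (min_le_left _ _) ((min_le_right _ _).trans ?_))
    rw [le_div_iff₀ h13]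
    calc X ^ (1 / 12 : ℝ) * H ^ (1 / 3 : ℝ) ≤ X ^ (1 / 12 : ℝ) * (X ^ (1 / 4 : ℝ)) ^ (1 / 3 : ℝ) :=
          mul_le_mul_of_nonneg_left (Real.rpow_le_rpow hH0.le h4 (by norm_num)) (by positivity)
      _ = X ^ (1 / 6 : ℝ) := by
          rw [← Real.rpow_mul hX0.le, ← Real.rpow_add hX0]
          norm_num
  · rw [M3]
    refine le_max_of_le_right (le_min ((min_le_right _ _).trans ?_) ((min_le_right _ _).trans ?_))
    · calc X ^ (1 / 12 : ℝ) = (X ^ (1 / 4 : ℝ)) ^ (1 / 3 : ℝ) := by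
            rw [← Real.rpow_mul hX0.le]
            norm_num
        _ ≤ H ^ (1 / 3 : ℝ) := Real.rpow_le_rpow (by positivity) h4 (by norm_num)
    · rw [le_div_iff₀ h13]
      calc X ^ (1 / 12 : ℝ) * H ^ (1 / 3 : ℝ) ≤ X ^ (1 / 12 : ℝ) * (X ^ (5 / 12 : ℝ)) ^ (1 / 3 : ℝ) :=
            mul_le_mul_of_nonneg_left (Real.rpow_le_rpow hH0.le h (by norm_num)) (by positivity)
        _ = X ^ (2 / 9 : ℝ) := by
            rw [← Real.rpow_mul hX0.le, ← Real.rpow_add hX0]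
            norm_num

/-- for `H ≥ X^(5/12)` -/
theorem m4_hi (X H : ℝ) (hX : 1 ≤ X) (h : X ^ (5 / 12 : ℝ) ≤ H) : M4 X H = X ^ (1 / 12 : ℝ) := by
  have hX0 : 0 < X := by linarith
  have hH0 : 0 < H := lt_of_lt_of_le (by positivity) h
  have h13 : (0 : ℝ) < H ^ (1 / 3 : ℝ) := by positivity
  have e1 : X ^ (5 / 36 : ℝ) ≤ H ^ (1 / 3 : ℝ) := by
    calc X ^ (5 / 36 : ℝ) = (X ^ (5 / 12 : ℝ)) ^ (1 / 3 : ℝ) := by
          rw [← Real.rpow_mul hX0.le]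
          norm_num
      _ ≤ H ^ (1 / 3 : ℝ) := Real.rpow_le_rpow (by positivity) h (by norm_num)
  have e2 : X ^ (1 / 12 : ℝ) ≤ H ^ (1 / 2 : ℝ) := by
    calc X ^ (1 / 12 : ℝ) ≤ X ^ (5 / 24 : ℝ) := Real.rpow_le_rpow_of_exponent_le hX (by norm_num)
      _ = (X ^ (5 / 12 : ℝ)) ^ (1 / 2 : ℝ) := by
          rw [← Real.rpow_mul hX0.le]
          norm_num
      _ ≤ H ^ (1 / 2 : ℝ) := Real.rpow_le_rpow (by positivity) h (by norm_num)
  have e3 : X ^ (2 / 9 : ℝ) / H ^ (1 / 3 : ℝ) ≤ X ^ (1 / 12 : ℝ) := by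
    rw [div_le_iff₀ h13]
    calc X ^ (2 / 9 : ℝ) = X ^ (1 / 12 : ℝ) * X ^ (5 / 36 : ℝ) := by
          rw [← Real.rpow_add hX0]
          norm_num
      _ ≤ X ^ (1 / 12 : ℝ) * H ^ (1 / 3 : ℝ) := mul_le_mul_of_nonneg_left e1 (by positivity)
  have e4 : X ^ (1 / 6 : ℝ) / H ^ (1 / 3 : ℝ) ≤ X ^ (1 / 12 : ℝ) := by
    refine (div_le_div_of_nonneg_right ?_ h13.le).trans e3
    exact Real.rpow_le_rpow_of_exponent_le hX (by norm_num)
  rw [M4, min_eq_right e2]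
  refine max_eq_right ?_
  rw [M3]
  exact max_le ((min_le_right _ _).trans e4) ((min_le_right _ _).trans e3)

/-- both signs for every length up to `X^(7/12-ε)` -/
theorem eh4 (ε : ℝ) (hε : 0 < ε) : ∃ X0 : ℕ, ∀ X : ℕ, X0 ≤ X → ∀ H : ℕ,
    Real.log X ^ 16 ≤ H → (H : ℝ) ≤ (X : ℝ) ^ (7 / 12 - ε) → ∀ s : ℝ, s = 1 ∨ s = -1 →
    X * (M4 X H / (Lt ε X H * H)) ^ 2 ≤
      (((Ioc ⌊(X : ℝ) / Lw X⌋₊ ⌈Lw X * (X : ℝ)⌉₊).filter fun n => M4 X H / Lt ε X H ≤ s * EI n H).card : ℝ) := by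
  obtain ⟨a, ha⟩ : ∃ a : ℝ, a = min ε (1 / 30) := ⟨_, rfl⟩
  have ha0 : 0 < a := by rw [ha]; exact lt_min hε (by norm_num)
  have haε : a ≤ ε := by rw [ha]; exact min_le_left _ _
  have ha30 : a ≤ 1 / 30 := by rw [ha]; exact min_le_right _ _
  obtain ⟨X1, h3⟩ := eh3 a ha0
  obtain ⟨X2, hc⟩ := Pool.Agent.H24.EL.cnh a ha0
  have ev3 : ∀ᶠ X : ℝ in Filter.atTop, Real.log X ^ (2 : ℝ) ≤ X ^ ε := by
    have h := (isLittleO_log_rpow_rpow_atTop 2 hε).bound (c := 1) (by positivity)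
    filter_upwards [h, Filter.eventually_ge_atTop 1] with X hX hX1
    have hl := Real.log_nonneg hX1
    rw [Real.norm_eq_abs, abs_of_nonneg (by positivity), Real.norm_eq_abs, abs_of_nonneg (by positivity)] at hX
    linarith
  obtain ⟨x3, hx3'⟩ := Filter.eventually_atTop.mp ev3
  refine ⟨max (max 3 ⌈x3⌉₊) (max X1 X2), fun X hX H hH1 hH2 s hs => ?_⟩
  have hX3 : 3 ≤ X := (le_max_left _ _).trans ((le_max_left _ _).trans hX)
  have hX1 : X1 ≤ X := (le_max_left _ _).trans ((le_max_right _ _).trans hX)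
  have hX2 : X2 ≤ X := (le_max_right _ _).trans ((le_max_right _ _).trans hX)
  have hXx3 : x3 ≤ X := (Nat.le_ceil x3).trans (by
    exact_mod_cast (le_max_right 3 _).trans ((le_max_left _ (max X1 X2)).trans hX))
  have hx3 : (3 : ℝ) ≤ X := by exact_mod_cast hX3
  have hx1 : (1 : ℝ) ≤ X := by linarith
  have hx0 : (0 : ℝ) < X := by linarith
  have hlog : 1 ≤ Real.log X := by
    rw [Real.le_log_iff_exp_le hx0]
    have := Real.exp_one_lt_d9
    linarith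
  have hlogp : 0 < Real.log X := by linarith
  have hlε : Real.log X ^ 2 ≤ (X : ℝ) ^ ε := by
    calc Real.log X ^ 2 = Real.log X ^ (2 : ℝ) := by rw [← Real.rpow_natCast]; norm_num
      _ ≤ (X : ℝ) ^ ε := hx3' X hXx3
  have hHr : (1 : ℝ) ≤ H := (one_le_pow₀ hlog).trans hH1
  have hH0 : (0 : ℝ) < H := by linarith
  have hmono : ∀ u t : ℝ, u ≤ t → (((Ioc ⌊(X : ℝ) / Lw X⌋₊ ⌈Lw X * (X : ℝ)⌉₊).filter
      fun n => t ≤ s * EI n H).card : ℝ) ≤ (((Ioc ⌊(X : ℝ) / Lw X⌋₊ ⌈Lw X * (X : ℝ)⌉₊).filter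
      fun n => u ≤ s * EI n H).card : ℝ) := by
    intro u t ht
    exact_mod_cast card_le_card (monotone_filter_right _ fun n _ hn => ht.trans hn)
  rcases le_or_gt (H : ℝ) ((X : ℝ) ^ (5 / 12 : ℝ)) with h | h
  · rw [m4_lo X H hx1 hHr h]
    have hM0 : 0 ≤ M3 X H := by
      unfold M3
      exact le_max_of_le_left (le_min (by positivity) (by positivity))
    have h1 := h3 X hX1 H hH1 (h.trans (Real.rpow_le_rpow_of_exponent_le hx1 (by linarith))) s hs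
    have hLa : 0 < Lt a X H := by
      rw [Lt]
      split_ifs
      · positivity
      · positivity
    have hLaε : Lt a X H ≤ Lt ε X H := by
      rw [Lt, Lt]
      by_cases c1 : (H : ℝ) ≤ (X : ℝ) ^ (1 / 5 - ε)
      · have c2 : (H : ℝ) ≤ (X : ℝ) ^ (1 / 5 - a) := c1.trans (Real.rpow_le_rpow_of_exponent_le hx1 (by linarith))
        rw [if_pos c1, if_pos c2]
      · rw [if_neg c1]
        split_ifs
        · exact hlε
        · exact Real.rpow_le_rpow_of_exponent_le hx1 haε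
    refine le_trans ?_ (h1.trans (hmono _ _ (div_le_div_of_nonneg_left hM0 hLa hLaε)))
    refine mul_le_mul_of_nonneg_left ?_ hx0.le
    refine pow_le_pow_left₀ (div_nonneg hM0 (mul_nonneg (hLa.le.trans hLaε) hH0.le)) ?_ 2
    exact div_le_div_of_nonneg_left hM0 (mul_pos hLa hH0) (mul_le_mul_of_nonneg_right hLaε hH0.le)
  · have h5 : ¬ (H : ℝ) ≤ (X : ℝ) ^ (1 / 5 - ε) := by
      intro hcc
      have := Real.rpow_le_rpow_of_exponent_le hx1 (by linarith : 1 / 5 - ε ≤ 5 / 12)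
      linarith
    rw [m4_hi X H hx1 h.le, Lt, if_neg h5]
    have h1 := hc X hX2 H ((Real.rpow_le_rpow_of_exponent_le hx1 (by norm_num)).trans h.le)
      (hH2.trans (Real.rpow_le_rpow_of_exponent_le hx1 (by linarith))) s hs
    have e0 : (X : ℝ) ^ (1 / 12 : ℝ) / (X : ℝ) ^ ε ≤ (X : ℝ) ^ (1 / 12 - a) := by
      rw [← Real.rpow_sub hx0]
      exact Real.rpow_le_rpow_of_exponent_le hx1 (by linarith)
    refine le_trans ?_ (h1.trans (hmono _ _ e0))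
    have e1 : (X : ℝ) * ((X : ℝ) ^ (1 / 12 : ℝ) / ((X : ℝ) ^ ε * H)) ^ 2 = (X : ℝ) ^ (7 / 6 - 2 * ε) / (H : ℝ) ^ 2 := by
      rw [← div_div, div_pow, ← Real.rpow_sub hx0, ← Real.rpow_natCast ((X : ℝ) ^ (1 / 12 - ε)), ← Real.rpow_mul hx0.le,
        ← mul_div_assoc]
      congr 1
      nth_rewrite 1 [← Real.rpow_one (X : ℝ)]
      rw [← Real.rpow_add hx0]
      congr 1
      push_cast
      ring
    rw [e1]
    refine div_le_div_of_nonneg_right ?_ (by positivity)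
    exact Real.rpow_le_rpow_of_exponent_le hx1 (by linarith)

end Pool.Agent.H67.EH
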